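import Pool.Agent.helper73.ASU.Spec2
import Pool.Agent.helper47.RA.Num

set_option autoImplicit false

/-!
# ASU, row POW: the `k`-th power of the twisted sum
-/

namespace Pool.Agent.ASU

open Finset Pool.Agent.helper3.FT

private lemma POW_e (x : ℝ) : ‖e x‖ = 1 := by
  unfold e
  rw [show (2 * Real.pi * Complex.I * x : ℂ) = ((2 * Real.pi * x : ℝ) : ℂ) * Complex.I by push_cast; ring]
  exact Complex.norm_exp_ofReal_mul_I _

private lemma POW_card (N k m : ℕ) (hm : m ≠ 0) :
    ((Fintype.piFinset (fun _ : Fin k => Ico 1 N)).filter (fun f => ∏ i, f i = m)).card ≤ m.divisors.card ^ k := by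
  classical
  have h : ((Fintype.piFinset (fun _ : Fin k => Ico 1 N)).filter (fun f => ∏ i, f i = m)) ⊆
      Fintype.piFinset (fun _ : Fin k => m.divisors) := by
    intro f hf
    rw [Finset.mem_filter] at hf
    rw [Fintype.mem_piFinset]
    intro i
    rw [Nat.mem_divisors]
    refine ⟨?_, hm⟩
    rw [← hf.2]
    exact Finset.dvd_prod_of_mem _ (Finset.mem_univ i)
  refine (Finset.card_le_card h).trans (le_of_eq ?_)
  rw [Fintype.card_piFinset]
  simp

theorem POW : POW_stmt := by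
  classical
  intro k hk ε hε
  have hk0 : (0 : ℝ) < k := by exact_mod_cast hk
  obtain ⟨C₁, hC₁, hdiv⟩ := Pool.Agent.helper47.RA.card_divisors_le (ε / k / k) (by positivity)
  refine ⟨C₁ ^ k, by positivity, fun N j hN => ?_⟩
  refine ⟨fun m => ∑ f ∈ (Fintype.piFinset (fun _ : Fin k => Ico 1 N)).filter (fun f => ∏ i, f i = m),
    ∏ i, e ((f i : ℝ) * j / (2 * N)), fun m hm => ?_, fun p _ χ => ?_⟩
  · rw [mem_Icc] at hm
    have hN0 : (0 : ℝ) < N := by exact_mod_cast hN
    have h1 : ‖∑ f ∈ (Fintype.piFinset (fun _ : Fin k => Ico 1 N)).filter (fun f => ∏ i, f i = m),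
        ∏ i, e ((f i : ℝ) * j / (2 * N))‖ ≤ ((m.divisors.card ^ k : ℕ) : ℝ) := by
      refine (norm_sum_le _ _).trans ?_
      have h2 : ∀ f ∈ (Fintype.piFinset (fun _ : Fin k => Ico 1 N)).filter (fun f => ∏ i, f i = m),
          ‖∏ i, e ((f i : ℝ) * j / (2 * N))‖ = 1 := by
        intro f _
        rw [norm_prod]
        exact prod_eq_one fun i _ => POW_e _
      rw [sum_congr rfl h2, sum_const, nsmul_eq_mul, mul_one]
      exact_mod_cast POW_card N k m (by omega)
    refine h1.trans ?_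
    push_cast
    have hm0 : (0 : ℝ) ≤ m := Nat.cast_nonneg m
    have hmN : (m : ℝ) ≤ (N : ℝ) ^ k := by exact_mod_cast hm.2
    calc ((m.divisors.card : ℕ) : ℝ) ^ k ≤ (C₁ * (m : ℝ) ^ (ε / k / k)) ^ k :=
          pow_le_pow_left₀ (Nat.cast_nonneg _) (hdiv m (by omega)) k
      _ = C₁ ^ k * (m : ℝ) ^ (ε / k) := by
          rw [mul_pow, ← Real.rpow_natCast ((m : ℝ) ^ (ε / k / k)) k, ← Real.rpow_mul hm0]
          congr 2
          field_simp
      _ ≤ C₁ ^ k * ((N : ℝ) ^ k) ^ (ε / k) :=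
          mul_le_mul_of_nonneg_left (Real.rpow_le_rpow hm0 hmN (by positivity)) (by positivity)
      _ = C₁ ^ k * (N : ℝ) ^ ε := by
          rw [← Real.rpow_natCast (N : ℝ) k, ← Real.rpow_mul hN0.le]
          congr 2
          field_simp
  · have hmem : ∀ f ∈ Fintype.piFinset (fun _ : Fin k => Ico 1 N), ∏ i, f i ∈ Icc 1 (N ^ k) := by
      intro f hf
      rw [Fintype.mem_piFinset] at hf
      rw [mem_Icc]
      constructor
      · exact Nat.one_le_iff_ne_zero.2 (Finset.prod_ne_zero_iff.2 fun i _ => by have := (mem_Ico.mp (hf i)).1; omega)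
      · calc ∏ i, f i ≤ ∏ _i : Fin k, N := Finset.prod_le_prod' fun i _ => (mem_Ico.mp (hf i)).2.le
          _ = N ^ k := by simp
    have h1 : GS χ N j ^ k = ∑ f ∈ Fintype.piFinset (fun _ : Fin k => Ico 1 N),
        (∏ i, e ((f i : ℝ) * j / (2 * N))) * χ ((∏ i, f i : ℕ) : ZMod p) := by
      have h2 : GS χ N j ^ k = ∏ _i : Fin k, ∑ h ∈ Ico 1 N, χ (h : ZMod p) * e ((h : ℝ) * j / (2 * N)) := by
        rw [Finset.prod_const, Finset.card_univ, Fintype.card_fin, GS]
      rw [h2, Finset.prod_univ_sum]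
      refine Finset.sum_congr rfl fun f _ => ?_
      rw [Nat.cast_prod, map_prod, prod_mul_distrib, mul_comm]
    rw [h1, ← Finset.sum_fiberwise_of_maps_to hmem]
    refine Finset.sum_congr rfl fun m _ => ?_
    rw [sum_mul]
    refine Finset.sum_congr rfl fun f hf => ?_
    rw [(Finset.mem_filter.mp hf).2]

end Pool.Agent.ASU
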